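import Pool.Agent.Helper5.FewPrimes

set_option autoImplicit false

namespace Pool.Agent.Helper5.Variants.FewPrimeFactors

open Finset Pool.Agent.Helper5

/-- The Erdős–Szemerédi inequality with the full exponent, for all `k`, for finite sets `A` of
integers with a subset `B` of size at least `|A| ^ (1 - c)` all of whose nonzero elements have few
distinct prime factors (with arbitrary exponents), up to a cofactor with few prime factors counted
with multiplicity. -/
theorem result : ∀ k : ℕ, 1 ≤ k → ∀ ε : ℝ, 0 < ε → ∃ c : ℝ, 0 < c ∧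
    ∀ A B : Finset ℤ, A.Nonempty → B ⊆ A → (A.card : ℝ) ^ (1 - c) ≤ (B.card : ℝ) →
      (∀ a ∈ B, a ≠ 0 → ∃ z w : ℤ, a = z * w ∧
        (z.natAbs.primeFactors.card : ℝ) * Real.log (Real.log (A.card : ℝ)) ≤
          c * Real.log (A.card : ℝ) ∧
        (w.natAbs.primeFactorsList.length : ℝ) ≤ c * Real.log (A.card : ℝ)) →
      c * (A.card : ℝ) ^ ((k : ℝ) - ε) ≤
        max
          (((Fintype.piFinset (fun _ : Fin k => A)).image
              (fun f : Fin k → ℤ => ∑ i, f i)).card : ℝ)
          (((Fintype.piFinset (fun _ : Fin k => A)).image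
              (fun f : Fin k → ℤ => ∏ i, f i)).card : ℝ) := by
  intro k hk ε hε
  obtain ⟨c', hc', hcore⟩ := core k hk (ε / 2) (by positivity)
  have hk0 : (0 : ℝ) < k := by exact_mod_cast hk
  refine ⟨min (c' / 2) (min (1 / 2) (ε / (2 * k))), by positivity, ?_⟩
  intro A B hA hBA hcard hfew
  set c := min (c' / 2) (min (1 / 2) (ε / (2 * k))) with hc
  have hc1 : c ≤ c' / 2 := min_le_left _ _
  have hc2 : c ≤ 1 / 2 := (min_le_right _ _).trans (min_le_left _ _)
  have hc3 : c ≤ ε / (2 * k) := (min_le_right _ _).trans (min_le_right _ _)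
  have hcpos : 0 < c := by rw [hc]; positivity
  clear_value c
  have hn1 : 1 ≤ A.card := card_pos.mpr hA
  have hn1' : (1 : ℝ) ≤ A.card := by exact_mod_cast hn1
  have hnpos : (0 : ℝ) < A.card := by linarith
  have hbpos : (0 : ℝ) < B.card := lt_of_lt_of_le (Real.rpow_pos_of_pos hnpos _) hcard
  have hBne : B.Nonempty := by
    rw [← card_pos]; exact_mod_cast hbpos
  have hb1 : (1 : ℝ) ≤ B.card := by exact_mod_cast card_pos.mpr hBne
  have hbn : (B.card : ℝ) ≤ A.card := by exact_mod_cast card_le_card hBA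
  have hlogb : 0 ≤ Real.log B.card := Real.log_nonneg hb1
  have hlogn : 0 ≤ Real.log A.card := Real.log_nonneg hn1'
  have hloglow : (1 - c) * Real.log A.card ≤ Real.log B.card := by
    rw [← Real.log_rpow hnpos]
    exact Real.log_le_log (Real.rpow_pos_of_pos hnpos _) hcard
  have hloglow2 : Real.log A.card ≤ 2 * Real.log B.card := by
    have : 1 / 2 * Real.log A.card ≤ (1 - c) * Real.log A.card :=
      mul_le_mul_of_nonneg_right (by linarith) hlogn
    linarith
  have hkey : c * Real.log A.card ≤ c' * Real.log B.card := by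
    calc c * Real.log A.card ≤ c' / 2 * Real.log A.card :=
          mul_le_mul_of_nonneg_right hc1 hlogn
      _ ≤ c' / 2 * (2 * Real.log B.card) :=
          mul_le_mul_of_nonneg_left hloglow2 (by positivity)
      _ = _ := by ring
  have hB := hcore B hBne (by
    intro a ha ha0
    obtain ⟨z, w, hzw, hz, hw⟩ := hfew a ha ha0
    refine ⟨z, w, hzw, ?_, hw.trans hkey⟩
    rcases le_or_gt (Real.log (Real.log B.card)) 0 with h | h
    · calc (z.natAbs.primeFactors.card : ℝ) * Real.log (Real.log B.card) ≤ 0 :=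
            mul_nonpos_of_nonneg_of_nonpos (Nat.cast_nonneg _) h
        _ ≤ _ := by positivity
    · have hlb : 0 < Real.log B.card := by
        rcases hlogb.eq_or_lt with h0 | h0
        · rw [← h0] at h; simp at h
        · exact h0
      have h1 : Real.log (Real.log B.card) ≤ Real.log (Real.log A.card) :=
        Real.log_le_log hlb (Real.log_le_log hbpos hbn)
      calc (z.natAbs.primeFactors.card : ℝ) * Real.log (Real.log B.card)
          ≤ (z.natAbs.primeFactors.card : ℝ) * Real.log (Real.log A.card) :=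
            mul_le_mul_of_nonneg_left h1 (Nat.cast_nonneg _)
        _ ≤ c * Real.log A.card := hz
        _ ≤ _ := hkey)
  have hmono : max ((kS k B).card : ℝ) ((kP k B).card : ℝ) ≤
      max ((kS k A).card : ℝ) ((kP k A).card : ℝ) := by
    apply max_le_max
    · exact_mod_cast card_le_card (kS_mono k hBA)
    · exact_mod_cast card_le_card (kP_mono k hBA)
  have hmax1 : (1 : ℝ) ≤ max ((kS k A).card : ℝ) ((kP k A).card : ℝ) := by
    apply le_max_of_le_left
    exact_mod_cast card_pos.mpr (kS_nonempty k hA)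
  show c * (A.card : ℝ) ^ ((k : ℝ) - ε) ≤ max ((kS k A).card : ℝ) ((kP k A).card : ℝ)
  rcases le_or_gt 0 ((k : ℝ) - ε / 2) with h0 | h0
  · have h1 : (A.card : ℝ) ^ ((k : ℝ) - ε) ≤ (B.card : ℝ) ^ ((k : ℝ) - ε / 2) := by
      calc (A.card : ℝ) ^ ((k : ℝ) - ε) ≤ (A.card : ℝ) ^ ((1 - c) * ((k : ℝ) - ε / 2)) := by
            apply Real.rpow_le_rpow_of_exponent_le hn1'
            have h2 : c * k ≤ ε / 2 := by
              calc c * k ≤ ε / (2 * k) * k := mul_le_mul_of_nonneg_right hc3 hk0.le
                _ = ε / 2 := by field_simp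
            have h3 : 0 ≤ c * (ε / 2) := by positivity
            linarith
        _ = ((A.card : ℝ) ^ (1 - c)) ^ ((k : ℝ) - ε / 2) := Real.rpow_mul hnpos.le _ _
        _ ≤ (B.card : ℝ) ^ ((k : ℝ) - ε / 2) :=
            Real.rpow_le_rpow (Real.rpow_nonneg hnpos.le _) hcard h0
    calc c * (A.card : ℝ) ^ ((k : ℝ) - ε) ≤ c' * (B.card : ℝ) ^ ((k : ℝ) - ε / 2) := by
          apply mul_le_mul _ h1 (Real.rpow_nonneg hnpos.le _) hc'.le
          linarith
      _ ≤ _ := hB
      _ ≤ _ := hmono
  · have h1 : (A.card : ℝ) ^ ((k : ℝ) - ε) ≤ 1 :=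
      Real.rpow_le_one_of_one_le_of_nonpos hn1' (by linarith)
    calc c * (A.card : ℝ) ^ ((k : ℝ) - ε) ≤ 1 * 1 := by
          apply mul_le_mul (by linarith) h1 (Real.rpow_nonneg hnpos.le _) (by norm_num)
      _ ≤ _ := by linarith

end Pool.Agent.Helper5.Variants.FewPrimeFactors
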